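import Pool.Agent.R460.GP.Conv

/-!
# Prime pairs with difference `d` for almost all even `d` in the residue classes of EVERY modulus up to
`x ^ (7 / 10 - ρ)`, with a lower bound of the expected order in every window

For every modulus `q ≤ x ^ (7 / 10 - ρ)` and every residue class `a` modulo `q` such that the greatest common
divisor of `a` and `q` is at most a fixed power of `log x`, all but at most `x / (q (log x) ^ A)` of the even
integers `d ≤ x`, `d ≡ a (mod q)`, satisfy: EVERY window `(u, v] ⊆ (d, x]` of length at least `x / (log x) ^ A`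
contains at least one twentieth of the expected number `𝔖(d) (v - u) / (log x) ^ 2` of primes `p` with `p - d`
prime; for instance `π₂(x, d) ≥ (1 / 20) 𝔖(d) (x - d) / (log x) ^ 2` if `d ≤ x - x / (log x) ^ A`. The same holds
for EVERY residue class (for instance for the multiples of `q`), if `q` is not divisible by a member of a set `D` of
at most `(log x) ^ c` integers, all of them larger than any given power of `log x`.

Definitions used: `sing d = 2 C₂ ∏_{p ∣ d, p > 2} (p - 1) / (p - 2)` with `C₂ = ∏_{p > 2} (1 - 1 / (p - 1) ^ 2)`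
(in `Pool.Agent.H560R3.GB`), the function `𝔖(d)` of the problem for even `d`.

Proof (`R460/GS`, `R460/GR`, `R460/GP`). Let `G` be `log N` times the indicator function of the integers without
prime factors up to `N ^ (3 / 10)`, `N = 2 ⌊x⌋`. Then `Λ(m) Λ(n) ≥ Λ(m) G(n) + G(m) Λ(n) - G(m) G(n)` up to prime
powers, and the mean value `w` of `G` satisfies `2 w - w ^ 2 > 55 / 1000`. The difference of `G` and a sieve model
is a bilinear sum with flexible lengths; so its sum over the characters modulo `q` is small in mean square, for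
all but few characters near the fractions with small denominators, and for all characters elsewhere, if
`q ≤ N ^ (7 / 10 - ρ)`. The few bad characters have a large conductor, and the correlations of the primes with the
shifted characters `χ (a + n)` of a large conductor are small, if the common divisor of `a` and `q` is small.
-/

set_option autoImplicit false

namespace Pool.Agent.Results.MP_678834_nt.PairsEveryModulus

open Pool.Agent.H560R3.GB (sing)

/-- The number of the primes `p` with `u < p ≤ v`, `d < p`, such that `p - d` is a prime. -/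
noncomputable def pairs (d : ℕ) (u v : ℝ) : ℕ :=
  Set.ncard {p : ℕ | p.Prime ∧ d < p ∧ (p - d).Prime ∧ u < (p : ℝ) ∧ (p : ℝ) ≤ v}

/-- Every window `(u, v] ⊆ (d, x]` of length at least `x / (log x) ^ A` contains at least one twentieth of the
number of primes `p` with `p - d` prime which Hardy and Littlewood predict. -/
def AllWindows (A : ℕ) (x : ℝ) (d : ℕ) : Prop :=
  ∀ u v : ℝ, (d : ℝ) ≤ u → v ≤ x → x / Real.log x ^ A ≤ v - u →
    1 / 20 * (sing d * (v - u) / Real.log x ^ 2) ≤ (pairs d u v : ℝ)

/-- The even integers `d ≡ a (mod q)` with `0 < d ≤ x` for which `AllWindows A x d` fails. -/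
def exceptional (A : ℕ) (x : ℝ) (q : ℕ) (a : ℤ) : Set ℕ :=
  {d : ℕ | 0 < d ∧ (d : ℝ) ≤ x ∧ 2 ∣ d ∧ (d : ℤ) ≡ a [ZMOD q] ∧ ¬ AllWindows A x d}

/-- For all `ρ > 0`, `A` and `T` there is `c` such that for all `B` and all sufficiently large real `x` there is a
finite set `D` of at most `(log x) ^ c` integers, all of them larger than `(log x) ^ B`, such that for every integer
`1 ≤ q ≤ x ^ (7 / 10 - ρ)` and every integer `a` such that `gcd (a, q) ≤ (log x) ^ T` or `q` is not divisible by a
member of `D`, for all but at most `x / (q (log x) ^ A)` of the even integers `0 < d ≤ x`, `d ≡ a (mod q)`,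
every window `(u, v] ⊆ (d, x]` of length at least `x / (log x) ^ A` contains at least one twentieth of the predicted
number of primes `p` with `p - d` prime. -/
theorem result (ρ : ℝ) (hρ : 0 < ρ) (A T : ℕ) :
    ∃ c : ℕ, ∀ B : ℕ, ∃ x₀ : ℝ, ∀ x : ℝ, x₀ ≤ x → ∃ D : Finset ℕ, (D.card : ℝ) ≤ Real.log x ^ c ∧
      (∀ d ∈ D, Real.log x ^ B < (d : ℝ)) ∧
      ∀ q : ℕ, 1 ≤ q → (q : ℝ) ≤ x ^ (7 / 10 - ρ) → ∀ a : ℤ,
        ((Int.gcd a q : ℝ) ≤ Real.log x ^ T ∨ ∀ d ∈ D, ¬ d ∣ q) →
          (exceptional A x q a).Finite ∧ ((exceptional A x q a).ncard : ℝ) ≤ x / (q * Real.log x ^ A) := by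
  obtain ⟨c, hc⟩ := Pool.Agent.R460.GP.pairs_few ρ hρ A T
  refine ⟨c, fun B => ?_⟩
  obtain ⟨x₁, h1⟩ := hc B
  refine ⟨x₁, fun x hx => ?_⟩
  obtain ⟨D, hD1, hD2, hD⟩ := h1 x hx
  refine ⟨D, hD1, hD2, fun q hq hqx a hor => ?_⟩
  obtain ⟨hf, hn⟩ := hD q hq hqx a hor
  have hsub : exceptional A x q a ⊆ Pool.Agent.R460.GP.exceptional A x q a := by
    rintro d ⟨h0, h2, h3, h4, h5⟩
    refine ⟨h0, h2, h3, h4, fun h6 => h5 ?_⟩
    intro u v hu hv hlen
    have h7 := h6 (u - d) (v - d) (by linarith) (by linarith [h2, (Nat.cast_nonneg d : (0 : ℝ) ≤ d)])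
      (by linarith)
    have h8 : v - d - (u - d) = v - u := by ring
    rw [h8] at h7
    refine h7.trans (le_of_eq ?_)
    unfold pairs Pool.Agent.R460.GP.pairs
    congr 1
    refine Set.ncard_congr (fun p _ => p + d) ?_ ?_ ?_
    · rintro p ⟨a1, a2, a3, a4⟩
      refine ⟨a2, ?_, ?_, ?_, ?_⟩
      · have := a1.pos
        omega
      · rwa [Nat.add_sub_cancel]
      · push_cast
        linarith
      · push_cast
        linarith
    · intro p p' _ _ h
      simpa using h
    · rintro p ⟨a1, a2, a3, a4, a5⟩
      refine ⟨p - d, ⟨a3, ?_, ?_, ?_⟩, Nat.sub_add_cancel a2.le⟩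
      · rwa [Nat.sub_add_cancel a2.le]
      · rw [Nat.cast_sub a2.le]
        linarith
      · rw [Nat.cast_sub a2.le]
        linarith
  refine ⟨hf.subset hsub, le_trans ?_ hn⟩
  exact_mod_cast Set.ncard_le_ncard hsub hf

end Pool.Agent.Results.MP_678834_nt.PairsEveryModulus
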