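import Pool.Agent.R490.Tq

set_option autoImplicit false

/-!
# Rough pairs in progressions: the law of the spacings, uniformly in the shifts and in the modulus
-/

namespace Pool.Agent.Results.MP_678834_nt.SpacingLaw

open Finset Filter

/-- No `q m + a + h`, `h ∈ H`, has a prime factor `≤ y`. -/
def Rough (H : Finset ℕ) (q a y m : ℕ) : Prop := ∀ p : ℕ, p.Prime → p ≤ y → ∀ h ∈ H, ¬ p ∣ q * m + a + h

/-- `0` if `p ∣ q`, otherwise the number of the residue classes modulo `p` which meet `H`. -/
def nu (H : Finset ℕ) (q p : ℕ) : ℕ := if p ∣ q then 0 else (H.image (fun h => h % p)).card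

/-- The product of `1 - nu(p) / p` over the primes `p ≤ y`, the density of the `m` with `Rough H q a y m`. -/
noncomputable def V (H : Finset ℕ) (q y : ℕ) : ℝ :=
  ∏ p ∈ (Finset.range (y + 1)).filter Nat.Prime, (1 - (nu H q p : ℝ) / p)

open Classical in
/-- The number of the `n` in `(u, u + Y]` with `Rough H q a y n` for which fewer than `l` of the `T` integers
before `n` have this property, that is, for which the distance from `n` to the `l`-th preceding such integer is
larger than `T`. -/
noncomputable def D (H : Finset ℕ) (q a y l T u Y : ℕ) : ℕ :=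
  ((Ioc u (u + Y)).filter (fun n => Rough H q a y n ∧
    ((Ico (n - T) n).filter (fun m => Rough H q a y m)).card < l)).card

open Classical in
/-- **The law of the spacings, uniformly.** Let `A` and `θ > 0`. For all `l0`, `x0` and `ε > 0` there is `r0` such
that for every `r ≥ r0`, all large `X`, with `y = X ^ (1 / r)`: for ALL even numbers `0 < d ≤ X ^ A` (in the question up to a power of `log X`),
ALL `q, a ≤ X ^ A` such that `q` is prime to all `a + h` and divides no difference of two different shifts, and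
ALL intervals `(u, u + Y]` with `Y ≥ X ^ θ`, among the `m` for which no `q m + a + h` has a prime factor `≤ y`,
the distances to the `l`-th preceding one have, in units `1 / V` and up to `ε`, the distribution which belongs
to a Poisson process. -/
theorem result (A : ℕ) (θ : ℝ) (hθ : 0 < θ) (l0 : ℕ) (x0 ε : ℝ) (hε : 0 < ε) :
    ∃ r0 : ℕ, ∀ r : ℕ, r0 ≤ r → ∀ᶠ X : ℕ in atTop, ∀ y : ℕ, y = ⌊(X : ℝ) ^ (1 / (r : ℝ))⌋₊ →
      ∀ d : ℕ, 0 < d → Even d → d ≤ X ^ A →
      ∀ q a : ℕ, 1 ≤ q → q ≤ X ^ A → a ≤ X ^ A → (∀ h ∈ ({0, d} : Finset ℕ), Nat.Coprime q (a + h)) →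
      (∀ h ∈ ({0, d} : Finset ℕ), ∀ h' ∈ ({0, d} : Finset ℕ), h' < h → ¬ q ∣ h - h') →
      ∀ u Y : ℕ, (X : ℝ) ^ θ ≤ Y → ∀ l T : ℕ, (l ≤ l0 ∨ T * V {0, d} q y ≤ x0) →
        |(D {0, d} q a y l T u Y : ℝ) - Y * V {0, d} q y *
            ∑ j ∈ range l, Real.exp (-(T * V {0, d} q y)) * (T * V {0, d} q y) ^ j / j.factorial| ≤
          ε * (Y * V {0, d} q y) := by
  obtain ⟨r0, h0⟩ := Pool.Agent.R490.Tq.tgap 2 A le_rfl θ hθ l0 x0 ε hε
  refine ⟨r0, fun r hr => ?_⟩
  filter_upwards [h0 r hr] with X hX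
  intro y hy d hd hev hdX
  exact hX y hy {0, d} (Finset.card_pair (by omega)) (by
    intro h hh
    simp only [Finset.mem_insert, Finset.mem_singleton] at hh
    omega) (Pool.Agent.R490.Tq.adm_pair d hev)

end Pool.Agent.Results.MP_678834_nt.SpacingLaw
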